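import Mathlib

namespace RankStr

open Finset

variable {n : ℕ}

/-- The rank of a map: the size of its image. -/
def rank (a : Fin n → Fin n) : ℕ := (univ.image a).card

/-- `G` is primitive: transitive, and the only equivalence relations it preserves are equality
and the universal relation. -/
def Primitive (G : Subgroup (Equiv.Perm (Fin n))) : Prop :=
  (∀ x y : Fin n, ∃ g ∈ G, g x = y) ∧
    ∀ E : Setoid (Fin n), (∀ g ∈ G, ∀ x y, E x y → E (g x) (g y)) →
      (∀ x y, E x y → x = y) ∨ (∀ x y, E x y)

/-- `Gen G f a`: the map `a` lies in the semigroup generated by `f` and `G`. -/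
inductive Gen (G : Subgroup (Equiv.Perm (Fin n))) (f : Fin n → Fin n) : (Fin n → Fin n) → Prop
  | map : Gen G f f
  | perm (g : Equiv.Perm (Fin n)) (hg : g ∈ G) : Gen G f g
  | comp {a b : Fin n → Fin n} (ha : Gen G f a) (hb : Gen G f b) : Gen G f (b ∘ a)

/-- Some element of the semigroup sends `x` and `y` to the same point. -/
def Joined (G : Subgroup (Equiv.Perm (Fin n))) (f : Fin n → Fin n) (x y : Fin n) : Prop :=
  ∃ t, Gen G f t ∧ t x = t y

/-- The size of the kernel class of `h` over the point `z`. -/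
def fib (h : Fin n → Fin n) (z : Fin n) : ℕ := (univ.filter fun x => h x = z).card

theorem rank_comp_le (a b : Fin n → Fin n) : rank (b ∘ a) ≤ rank a := by
  unfold rank
  rw [← Finset.image_image]
  exact card_image_le

theorem rank_comp_le' (a b : Fin n → Fin n) : rank (b ∘ a) ≤ rank b := by
  unfold rank
  apply card_le_card
  intro x hx
  simp only [mem_image, mem_univ, true_and, Function.comp] at hx ⊢
  obtain ⟨y, hy⟩ := hx
  exact ⟨a y, hy⟩

theorem rank_perm (g : Equiv.Perm (Fin n)) (t : Fin n → Fin n) : rank (t ∘ g) = rank t := by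
  unfold rank
  congr 1
  ext x
  simp only [mem_image, mem_univ, true_and, Function.comp]
  constructor
  · rintro ⟨y, hy⟩; exact ⟨g y, hy⟩
  · rintro ⟨y, hy⟩; exact ⟨g.symm y, by simpa using hy⟩

variable {G : Subgroup (Equiv.Perm (Fin n))} {f : Fin n → Fin n} {r : ℕ}

theorem sep (hG : Primitive G) (h1 : 1 < r) {e₀ : Fin n → Fin n} (he : Gen G f e₀)
    (hr : rank e₀ = r) (x y : Fin n) (hxy : x ≠ y) :
    ∃ t, Gen G f t ∧ rank t = r ∧ t x ≠ t y := by
  by_contra hcon
  push Not at hcon
  let E : Setoid (Fin n) :=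
    ⟨fun x y => ∀ t, Gen G f t → rank t = r → t x = t y,
      ⟨fun x t _ _ => rfl, fun h t ht hrt => (h t ht hrt).symm,
        fun h h' t ht hrt => (h t ht hrt).trans (h' t ht hrt)⟩⟩
  rcases hG.2 E (fun g hg a b hab t ht hrt =>
      hab (t ∘ g) (Gen.comp (Gen.perm g hg) ht) (by rw [rank_perm]; exact hrt)) with h | h
  · exact hxy (h x y hcon)
  · have : rank e₀ ≤ 1 := by
      unfold rank
      rw [card_le_one]
      intro a ha b hb
      simp only [mem_image, mem_univ, true_and] at ha hb
      obtain ⟨a', rfl⟩ := ha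
      obtain ⟨b', rfl⟩ := hb
      exact h a' b' e₀ he hr
    omega

theorem merge (hmin : ∀ a, Gen G f a → r ≤ rank a) {e₀ : Fin n → Fin n} (he : Gen G f e₀)
    (hr : rank e₀ = r) {x y : Fin n} (hxy : Joined G f x y) :
    ∃ t, Gen G f t ∧ rank t = r ∧ t x = t y := by
  obtain ⟨t, ht, h⟩ := hxy
  refine ⟨e₀ ∘ t, Gen.comp ht he, le_antisymm ?_ (hmin _ (Gen.comp ht he)), ?_⟩
  · rw [← hr]; exact rank_comp_le' _ _
  · simp [Function.comp, h]

theorem size (hG : Primitive G) (hmin : ∀ a, Gen G f a → r ≤ rank a) {e₀ : Fin n → Fin n}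
    (he : Gen G f e₀) (hr : rank e₀ = r) {t : Fin n → Fin n} (ht : Gen G f t) (hrt : rank t = r)
    (y : Fin n) (hy : y ∈ univ.image t) : r * fib t y = n := by
  classical
  set Gs : Finset (Equiv.Perm (Fin n)) := univ.filter (fun g => g ∈ G) with hGs
  set N : Fin n → Fin n → ℕ := fun q x => (Gs.filter fun g => g q = x).card with hNdef
  have hle : ∀ q x q' x', N q x ≤ N q' x' := by
    intro q x q' x'
    obtain ⟨a, ha, hax⟩ := hG.1 x x'
    obtain ⟨b, hb, hbx⟩ := hG.1 q' q
    apply card_le_card_of_injOn (fun g => a * g * b)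
    · intro g hg
      simp only [hGs, coe_filter, mem_filter, mem_univ, true_and, Set.mem_ofPred_eq] at hg ⊢
      refine ⟨G.mul_mem (G.mul_mem ha hg.1) hb, ?_⟩
      simp [Equiv.Perm.mul_apply, hbx, hg.2, hax]
    · intro g _ g' _ hgg
      simpa using hgg
  have hN : ∀ q x q' x', N q x = N q' x' := fun q x q' x' =>
    le_antisymm (hle _ _ _ _) (hle _ _ _ _)
  have hsum : ∀ q, ∑ x, N q x = Gs.card := by
    intro q
    rw [card_eq_sum_card_fiberwise (f := fun g : Equiv.Perm (Fin n) => g q) (t := univ)]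
    intro g _
    simp
  have hnN : n * N y y = Gs.card := by
    rw [← hsum y, sum_congr rfl (fun x _ => hN y x y y)]
    simp
  have hpos : 0 < N y y := by
    rw [hNdef]
    apply card_pos.mpr
    exact ⟨1, by simp [hGs, G.one_mem]⟩
  set Q := univ.image e₀ with hQ
  have hQc : Q.card = r := hr
  have hone : ∀ g ∈ Gs, (Q.filter fun q => t (g q) = y).card = 1 := by
    intro g hg
    have hgG : g ∈ G := by simpa [hGs] using hg
    have hgen : Gen G f ((t ∘ g) ∘ e₀) := Gen.comp he (Gen.comp (Gen.perm g hgG) ht)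
    have him : Q.image (t ∘ g) = univ.image ((t ∘ g) ∘ e₀) := by
      rw [hQ, Finset.image_image]
    have hcard : (Q.image (t ∘ g)).card = Q.card := by
      apply le_antisymm card_image_le
      rw [him, hQc]
      exact hmin _ hgen
    have hinj := card_image_iff.mp hcard
    have hsub : Q.image (t ∘ g) = univ.image t := by
      apply eq_of_subset_of_card_le
      · intro z hz
        simp only [mem_image, mem_univ, true_and, Function.comp] at hz ⊢
        obtain ⟨q, _, hq⟩ := hz
        exact ⟨g q, hq⟩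
      · rw [hcard, hQc]
        exact le_of_eq hrt
    rw [← hsub] at hy
    obtain ⟨q, hq, hqy⟩ := mem_image.mp hy
    rw [card_eq_one]
    refine ⟨q, ?_⟩
    ext q'
    simp only [mem_filter, mem_singleton]
    constructor
    · rintro ⟨hq', hq'y⟩
      exact hinj hq' hq (by simpa [Function.comp] using hq'y.trans hqy.symm)
    · rintro rfl
      exact ⟨hq, hqy⟩
  have hcount : Gs.card = ∑ q ∈ Q, (Gs.filter fun g => t (g q) = y).card := by
    have h1 : Gs.card = ∑ g ∈ Gs, (Q.filter fun q => t (g q) = y).card := by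
      rw [sum_congr rfl hone]; simp
    rw [h1]
    simp only [card_filter]
    rw [sum_comm]
  have hinner : ∀ q ∈ Q, (Gs.filter fun g => t (g q) = y).card = fib t y * N y y := by
    intro q _
    rw [card_eq_sum_card_fiberwise (f := fun g : Equiv.Perm (Fin n) => g q)
      (t := univ.filter fun x => t x = y)]
    · rw [fib, ← smul_eq_mul, ← sum_const]
      apply sum_congr rfl
      intro x hx
      rw [← hN q x y y]
      congr 1
      ext g
      simp only [mem_filter, mem_univ, true_and] at hx ⊢
      constructor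
      · rintro ⟨⟨a, b⟩, c⟩; exact ⟨a, c⟩
      · rintro ⟨a, c⟩; exact ⟨⟨a, by rw [c]; exact hx⟩, c⟩
    · intro g hg
      simp only [coe_filter, mem_univ, true_and, Set.mem_ofPred_eq] at hg ⊢
      exact hg.2
  rw [sum_congr rfl hinner, sum_const, hQc, smul_eq_mul, ← hnN, ← mul_assoc] at hcount
  exact (Nat.eq_of_mul_eq_mul_right hpos hcount).symm

end RankStr
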