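import Pool.Agent.Lib.MP_338784_al.Basic

namespace RankStr

open Finset

variable {n : ℕ} {G : Subgroup (Equiv.Perm (Fin n))} {f : Fin n → Fin n} {r : ℕ}

/-- The standing assumptions. -/
structure Hyp (G : Subgroup (Equiv.Perm (Fin n))) (f : Fin n → Fin n) (r : ℕ)
    (e₀ : Fin n → Fin n) (k : ℕ) : Prop where
  prim : Primitive G
  one_lt : 1 < r
  min : ∀ a, Gen G f a → r ≤ rank a
  gen : Gen G f e₀
  rk : rank e₀ = r
  nk : n = r * k

variable {e₀ : Fin n → Fin n} {k : ℕ}

theorem Hyp.exists_k (hG : Primitive G) (h1 : 1 < r) (hmin : ∀ a, Gen G f a → r ≤ rank a)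
    (he : Gen G f e₀) (hr : rank e₀ = r) : ∃ k, Hyp G f r e₀ k := by
  have hne : (univ.image e₀).Nonempty := by
    rw [← card_pos]
    have : (univ.image e₀).card = r := hr
    omega
  obtain ⟨y, hy⟩ := hne
  exact ⟨fib e₀ y, hG, h1, hmin, he, hr, (size hG hmin he hr he hr y hy).symm⟩

theorem Hyp.fib_eq (H : Hyp G f r e₀ k) {t : Fin n → Fin n} (ht : Gen G f t) (hrt : rank t = r)
    {y : Fin n} (hy : y ∈ univ.image t) : fib t y = k := by
  have h := size H.prim H.min H.gen H.rk ht hrt y hy
  have h1 := H.one_lt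
  exact Nat.eq_of_mul_eq_mul_left (by omega) (h.trans H.nk)

/-- a rank `r` element composed after `h` still has rank `r` -/
theorem Hyp.rank_comp (H : Hyp G f r e₀ k) {t h : Fin n → Fin n} (ht : Gen G f t)
    (hrt : rank t = r) (hh : Gen G f h) : rank (t ∘ h) = r :=
  le_antisymm (by rw [← hrt]; exact rank_comp_le' _ _) (H.min _ (Gen.comp hh ht))

theorem fib_pos {h : Fin n → Fin n} {a : Fin n} (ha : a ∈ univ.image h) : 0 < fib h a := by
  obtain ⟨x, _, rfl⟩ := mem_image.mp ha
  exact card_pos.mpr ⟨x, by simp⟩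

theorem Hyp.sum_fib (H : Hyp G f r e₀ k) {t h : Fin n → Fin n} (ht : Gen G f t)
    (hrt : rank t = r) (hh : Gen G f h) {a : Fin n} (ha : a ∈ univ.image h) :
    ∑ b ∈ (univ.image h).filter (fun b => t b = t a), fib h b = k := by
  have hrc := H.rank_comp ht hrt hh
  have hmem : t a ∈ univ.image (t ∘ h) := by
    obtain ⟨x, _, rfl⟩ := mem_image.mp ha
    exact mem_image.mpr ⟨x, mem_univ _, rfl⟩
  have h1 := H.fib_eq (Gen.comp hh ht) hrc hmem
  rw [← h1, fib, card_eq_sum_card_fiberwise (f := h)
    (t := (univ.image h).filter (fun b => t b = t a))]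
  · apply sum_congr rfl
    intro b hb
    rw [fib]
    congr 1
    ext x
    simp only [mem_filter, mem_univ, true_and, Function.comp] at hb ⊢
    constructor
    · intro hx; exact ⟨by rw [hx]; exact hb.2, hx⟩
    · intro hx; exact hx.2
  · intro x hx
    simp only [coe_filter, mem_image, mem_univ, true_and, Set.mem_ofPred_eq, Function.comp,
      exists_apply_eq_apply] at hx ⊢
    exact hx

theorem Hyp.fib_le (H : Hyp G f r e₀ k) {h : Fin n → Fin n} (hh : Gen G f h) {a : Fin n}
    (ha : a ∈ univ.image h) : fib h a ≤ k := by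
  rw [← H.sum_fib H.gen H.rk hh ha]
  exact single_le_sum (f := fun b => fib h b) (fun _ _ => Nat.zero_le _)
    (mem_filter.mpr ⟨ha, rfl⟩)

theorem Hyp.pair_le (H : Hyp G f r e₀ k) {t h : Fin n → Fin n} (ht : Gen G f t)
    (hrt : rank t = r) (hh : Gen G f h) {a b : Fin n} (ha : a ∈ univ.image h)
    (hb : b ∈ univ.image h) (hab : b ≠ a) (htab : t b = t a) : fib h a + fib h b ≤ k := by
  rw [← H.sum_fib ht hrt hh ha, add_comm]
  have hsub : ({b, a} : Finset (Fin n)) ⊆ (univ.image h).filter (fun b => t b = t a) := by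
    intro x hx
    simp only [mem_insert, mem_singleton] at hx
    rcases hx with rfl | rfl
    · exact mem_filter.mpr ⟨hb, htab⟩
    · exact mem_filter.mpr ⟨ha, rfl⟩
  calc fib h b + fib h a = ∑ x ∈ ({b, a} : Finset (Fin n)), fib h x := by
        rw [sum_pair hab]
    _ ≤ _ := sum_le_sum_of_subset hsub

/-- the set of points of the image with a small kernel class -/
def small (h : Fin n → Fin n) (k : ℕ) : Finset (Fin n) :=
  (univ.image h).filter fun a => fib h a < k

/-- the set of points of the image with a full kernel class -/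
def full (h : Fin n → Fin n) (k : ℕ) : Finset (Fin n) :=
  (univ.image h).filter fun a => fib h a = k

theorem Hyp.card_add (H : Hyp G f r e₀ k) {h : Fin n → Fin n} (hh : Gen G f h) :
    (full h k).card + (small h k).card = rank h := by
  unfold full small rank
  rw [← card_union_of_disjoint]
  · congr 1
    ext a
    simp only [mem_union, mem_filter]
    constructor
    · rintro (⟨h1, _⟩ | ⟨h1, _⟩) <;> exact h1
    · intro ha
      have := H.fib_le hh ha
      rcases this.lt_or_eq with h1 | h1
      · exact Or.inr ⟨ha, h1⟩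
      · exact Or.inl ⟨ha, h1⟩
  · rw [disjoint_left]
    intro a ha hb
    simp only [mem_filter] at ha hb
    omega

theorem Hyp.full_single (H : Hyp G f r e₀ k) {t h : Fin n → Fin n} (ht : Gen G f t)
    (hrt : rank t = r) (hh : Gen G f h) {a b : Fin n} (ha : a ∈ full h k)
    (hb : b ∈ univ.image h) (htab : t b = t a) : b = a := by
  by_contra hab
  have ha' := mem_filter.mp ha
  have h1 := H.pair_le ht hrt hh ha'.1 hb hab htab
  have h2 := fib_pos hb
  omega

theorem Hyp.full_not_joined (H : Hyp G f r e₀ k) {h : Fin n → Fin n} (hh : Gen G f h)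
    {a b : Fin n} (ha : a ∈ full h k) (hb : b ∈ univ.image h) (hab : b ≠ a) :
    ¬ Joined G f a b := by
  intro hj
  obtain ⟨t, ht, hrt, htab⟩ := merge H.min H.gen H.rk hj
  exact hab (H.full_single ht hrt hh ha hb htab.symm)

theorem Hyp.partner (H : Hyp G f r e₀ k) {t h : Fin n → Fin n} (ht : Gen G f t)
    (hrt : rank t = r) (hh : Gen G f h) {a : Fin n} (ha : a ∈ small h k) :
    ∃ b ∈ small h k, b ≠ a ∧ t b = t a := by
  have ha' := mem_filter.mp ha
  by_contra hcon
  push Not at hcon
  have hsum := H.sum_fib ht hrt hh ha'.1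
  have hsing : (univ.image h).filter (fun b => t b = t a) = {a} := by
    ext b
    simp only [mem_filter, mem_singleton]
    constructor
    · rintro ⟨hb, hbt⟩
      by_contra hba
      have h1 := H.pair_le ht hrt hh ha'.1 hb hba hbt
      have h2 := fib_pos ha'.1
      exact hcon b (mem_filter.mpr ⟨hb, by omega⟩) hba hbt
    · rintro rfl
      exact ⟨ha'.1, rfl⟩
  rw [hsing, sum_singleton] at hsum
  omega

theorem Hyp.fibre_small (H : Hyp G f r e₀ k) {t h : Fin n → Fin n} (ht : Gen G f t)
    (hrt : rank t = r) (hh : Gen G f h) {a : Fin n} (ha : a ∈ small h k) :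
    (univ.image h).filter (fun b => t b = t a) = (small h k).filter (fun b => t b = t a) := by
  have ha' := mem_filter.mp ha
  ext b
  simp only [mem_filter]
  constructor
  · rintro ⟨hb, hbt⟩
    refine ⟨mem_filter.mpr ⟨hb, ?_⟩, hbt⟩
    by_cases hba : b = a
    · rw [hba]; exact ha'.2
    · have h1 := H.pair_le ht hrt hh ha'.1 hb hba hbt
      have h2 := fib_pos ha'.1
      omega
  · rintro ⟨hb, hbt⟩
    exact ⟨(mem_filter.mp hb).1, hbt⟩

/-- counting the parts of `t` on the image of `h` -/
theorem Hyp.count (H : Hyp G f r e₀ k) {t h : Fin n → Fin n} (ht : Gen G f t)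
    (hrt : rank t = r) (hh : Gen G f h) :
    ((small h k).image t).card + (full h k).card = r := by
  have h1 : ((full h k).image t).card = (full h k).card := by
    apply card_image_of_injOn
    intro a ha b hb hab
    exact H.full_single ht hrt hh hb (mem_filter.mp ha).1 hab
  have h2 : Disjoint ((small h k).image t) ((full h k).image t) := by
    rw [disjoint_left]
    intro c hc hc'
    obtain ⟨a, ha, rfl⟩ := mem_image.mp hc
    obtain ⟨b, hb, hbt⟩ := mem_image.mp hc'
    have := H.full_single ht hrt hh hb (mem_filter.mp ha).1 hbt.symm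
    subst this
    have h3 := (mem_filter.mp ha).2
    have h4 := (mem_filter.mp hb).2
    omega
  rw [← h1, ← card_union_of_disjoint h2, ← image_union, ← H.rank_comp ht hrt hh, rank,
    ← Finset.image_image]
  congr 2
  ext a
  simp only [mem_union, small, full, mem_filter]
  constructor
  · rintro (⟨h1, _⟩ | ⟨h1, _⟩) <;> exact h1
  · intro ha
    rcases (H.fib_le hh ha).lt_or_eq with h1 | h1
    · exact Or.inl ⟨ha, h1⟩
    · exact Or.inr ⟨ha, h1⟩

theorem Hyp.two_mul (H : Hyp G f r e₀ k) {t h : Fin n → Fin n} (ht : Gen G f t)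
    (hrt : rank t = r) (hh : Gen G f h) :
    2 * ((small h k).image t).card ≤ (small h k).card := by
  apply mul_card_image_le_card
  intro c hc
  obtain ⟨a, ha, rfl⟩ := mem_image.mp hc
  obtain ⟨b, hb, hba, hbt⟩ := H.partner ht hrt hh ha
  have hsub : ({b, a} : Finset (Fin n)) ⊆ (small h k).filter (fun x => t x = t a) := by
    intro x hx
    simp only [mem_insert, mem_singleton] at hx
    rcases hx with rfl | rfl
    · exact mem_filter.mpr ⟨hb, hbt⟩
    · exact mem_filter.mpr ⟨ha, rfl⟩
  calc 2 = ({b, a} : Finset (Fin n)).card := by rw [card_pair hba]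
    _ ≤ _ := card_le_card hsub

theorem Hyp.k_pos (H : Hyp G f r e₀ k) : 0 < k := by
  have hne : (univ.image e₀).Nonempty := by
    rw [← card_pos]
    have h1 : (univ.image e₀).card = r := H.rk
    have h2 := H.one_lt
    omega
  obtain ⟨y, hy⟩ := hne
  have h1 := H.fib_eq H.gen H.rk hy
  rw [← h1]
  exact fib_pos hy

/-- at least two parts among the small points -/
theorem Hyp.two_le (H : Hyp G f r e₀ k) {h : Fin n → Fin n} (hh : Gen G f h)
    (hr : r < rank h) : (full h k).card + 2 ≤ r := by
  have hadd := H.card_add hh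
  have hc := H.count H.gen H.rk hh
  by_contra hcon
  -- every rank `r` element is constant on the small points
  have hone : ∀ t, Gen G f t → rank t = r → ((small h k).image t).card ≤ 1 := by
    intro t ht hrt
    have := H.count ht hrt hh
    omega
  have h2 : 1 < (small h k).card := by
    have h3 := H.two_mul H.gen H.rk hh
    have h4 : 0 < (small h k).card := by omega
    have h5 : 0 < ((small h k).image e₀).card :=
      card_pos.mpr ((card_pos.mp h4).image _)
    omega
  obtain ⟨a, ha, b, hb, hab⟩ := one_lt_card.mp h2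
  obtain ⟨t, ht, hrt, htab⟩ := sep H.prim H.one_lt H.gen H.rk a b hab
  exact htab (card_le_one.mp (hone t ht hrt) _ (mem_image_of_mem _ ha) _
    (mem_image_of_mem _ hb))

theorem Hyp.general (H : Hyp G f r e₀ k) {h : Fin n → Fin n} (hh : Gen G f h) {j : ℕ}
    (hj : 1 ≤ j) (hr : rank h = r + j) :
    r ≤ (full h k).card + j ∧ (full h k).card + 2 ≤ r := by
  have hadd := H.card_add hh
  have hc := H.count H.gen H.rk hh
  have h2 := H.two_mul H.gen H.rk hh
  refine ⟨by omega, H.two_le hh (by omega)⟩

theorem Hyp.uniform (H : Hyp G f r e₀ k) {h : Fin n → Fin n} (hh : Gen G f h) {j : ℕ}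
    (hj : 1 ≤ j) (hr : rank h = r + j)
    (hu : ∀ a ∈ univ.image h, ∀ b ∈ univ.image h, fib h a = fib h b) : r ≤ j := by
  have hg := H.general hh hj hr
  have hadd := H.card_add hh
  have h0 : (full h k).card = 0 := by
    by_contra hne
    obtain ⟨a, ha⟩ := card_pos.mp (Nat.pos_of_ne_zero hne)
    have hfull : full h k = univ.image h := by
      ext b
      simp only [full, mem_filter]
      constructor
      · exact fun hb => hb.1
      · intro hb
        refine ⟨hb, ?_⟩
        have ha' := mem_filter.mp ha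
        rw [hu b hb a ha'.1]
        exact ha'.2
    have : (full h k).card = rank h := by rw [hfull, rank]
    omega
  omega

end RankStr
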