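import Pool.Agent.Lib.MP_338784_al.Main

namespace RankStr

open Finset

variable {n : ℕ} {G : Subgroup (Equiv.Perm (Fin n))} {f : Fin n → Fin n} {r : ℕ}
  {e₀ : Fin n → Fin n} {k : ℕ}

theorem Hyp.two_le_fibre (H : Hyp G f r e₀ k) {t h : Fin n → Fin n} (ht : Gen G f t)
    (hrt : rank t = r) (hh : Gen G f h) {a : Fin n} (ha : a ∈ small h k) :
    2 ≤ ((small h k).filter (fun x => t x = t a)).card := by
  obtain ⟨b, hb, hba, hbt⟩ := H.partner ht hrt hh ha
  have hsub : ({b, a} : Finset (Fin n)) ⊆ (small h k).filter (fun x => t x = t a) := by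
    intro x hx
    simp only [mem_insert, mem_singleton] at hx
    rcases hx with rfl | rfl
    · exact mem_filter.mpr ⟨hb, hbt⟩
    · exact mem_filter.mpr ⟨ha, rfl⟩
  calc 2 = ({b, a} : Finset (Fin n)).card := by rw [card_pair hba]
    _ ≤ _ := card_le_card hsub

theorem Hyp.cards (H : Hyp G f r e₀ k) {h : Fin n → Fin n} (hh : Gen G f h)
    (hr : rank h = r + 2) : (full h k).card + 2 = r ∧ (small h k).card = 4 := by
  have h1 := H.general hh (j := 2) (by norm_num) hr
  have h2 := H.card_add hh
  omega

theorem Hyp.fibre_two (H : Hyp G f r e₀ k) {t h : Fin n → Fin n} (ht : Gen G f t)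
    (hrt : rank t = r) (hh : Gen G f h) (hr : rank h = r + 2) {a : Fin n}
    (ha : a ∈ small h k) : ((small h k).filter (fun x => t x = t a)).card = 2 := by
  have h1 := H.cards hh hr
  have h2 := H.count ht hrt hh
  have h3 : ((small h k).image t).card = 2 := by omega
  obtain ⟨c₁, c₂, hne, himg⟩ := card_eq_two.mp h3
  have h4 := card_eq_sum_card_image t (small h k)
  rw [himg, sum_pair hne, h1.2] at h4
  have hc : ∀ c ∈ (small h k).image t, 2 ≤ ((small h k).filter (fun x => t x = c)).card := by
    intro c hc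
    obtain ⟨a, ha, rfl⟩ := mem_image.mp hc
    exact H.two_le_fibre ht hrt hh ha
  have h5 := hc c₁ (by rw [himg]; simp)
  have h6 := hc c₂ (by rw [himg]; simp)
  have h7 : t a ∈ (small h k).image t := mem_image_of_mem _ ha
  rw [himg] at h7
  simp only [mem_insert, mem_singleton] at h7
  rcases h7 with h7 | h7
  · rw [h7]; omega
  · rw [h7]; omega

/-- the pair of `a` under `t` -/
theorem Hyp.pairing (H : Hyp G f r e₀ k) {t h : Fin n → Fin n} (ht : Gen G f t)
    (hrt : rank t = r) (hh : Gen G f h) (hr : rank h = r + 2) {a : Fin n}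
    (ha : a ∈ small h k) : ∃ b ∈ small h k, b ≠ a ∧ t b = t a ∧
      (∀ c ∈ small h k, t c = t a → c = a ∨ c = b) ∧ fib h a + fib h b = k := by
  have h2 := H.fibre_two ht hrt hh hr ha
  obtain ⟨b, hb, hba, hbt⟩ := H.partner ht hrt hh ha
  have hset : ({a, b} : Finset (Fin n)) = (small h k).filter (fun x => t x = t a) := by
    apply eq_of_subset_of_card_le
    · intro x hx
      simp only [mem_insert, mem_singleton] at hx
      rcases hx with rfl | rfl
      · exact mem_filter.mpr ⟨ha, rfl⟩
      · exact mem_filter.mpr ⟨hb, hbt⟩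
    · rw [h2, card_pair (Ne.symm hba)]
  refine ⟨b, hb, hba, hbt, ?_, ?_⟩
  · intro c hc hct
    have : c ∈ ({a, b} : Finset (Fin n)) := by rw [hset]; exact mem_filter.mpr ⟨hc, hct⟩
    simpa using this
  · have hs := H.sum_fib ht hrt hh (mem_filter.mp ha).1
    rw [H.fibre_small ht hrt hh ha, ← hset, sum_pair (Ne.symm hba)] at hs
    exact hs

theorem Hyp.not_all_joined (H : Hyp G f r e₀ k) {h : Fin n → Fin n} (hh : Gen G f h)
    (hr : rank h = r + 2)
    (hall : ∀ p ∈ small h k, ∀ q ∈ small h k, p ≠ q → Joined G f p q) : False := by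
  set Q := univ.image (h ∘ e₀) with hQ
  have hgen : Gen G f (h ∘ e₀) := Gen.comp H.gen hh
  have hQc : r ≤ Q.card := H.min _ hgen
  have hQc' : Q.card ≤ r := by
    have := rank_comp_le e₀ h
    rw [H.rk] at this
    exact this
  have hclique : ∀ p ∈ Q, ∀ q ∈ Q, p ≠ q → ¬ Joined G f p q := by
    intro p hp q hq hpq hj
    obtain ⟨t, ht, htpq⟩ := hj
    have h1 : r ≤ (Q.image t).card := by
      rw [hQ, Finset.image_image]
      exact H.min _ (Gen.comp hgen ht)
    have h2 : (Q.image t).card = Q.card := le_antisymm card_image_le (by omega)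
    exact hpq (card_image_iff.mp h2 hp hq htpq)
  have hsub : Q ⊆ (Q.filter (fun a => a ∈ small h k)) ∪ full h k := by
    intro a ha
    have hah : a ∈ univ.image h := by
      obtain ⟨x, _, rfl⟩ := mem_image.mp ha
      exact mem_image.mpr ⟨e₀ x, mem_univ _, rfl⟩
    rcases (H.fib_le hh hah).lt_or_eq with h1 | h1
    · exact mem_union_left _ (mem_filter.mpr ⟨ha, mem_filter.mpr ⟨hah, h1⟩⟩)
    · exact mem_union_right _ (mem_filter.mpr ⟨hah, h1⟩)
  have h1 : (Q.filter (fun a => a ∈ small h k)).card ≤ 1 := by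
    rw [card_le_one]
    intro a ha b hb
    by_contra hab
    have ha' := mem_filter.mp ha
    have hb' := mem_filter.mp hb
    exact hclique a ha'.1 b hb'.1 hab (hall a ha'.2 b hb'.2 hab)
  have h2 := card_le_card hsub
  have h3 := card_union_le (Q.filter (fun a => a ∈ small h k)) (full h k)
  have h4 := (H.cards hh hr).1
  omega

theorem two_val {t : Fin n → Fin n} (ht : rank t = 2) {x y z : Fin n} (hxy : t x ≠ t y)
    (hyz : t y ≠ t z) : t x = t z := by
  by_contra hxz
  have hsub : ({t x, t y, t z} : Finset (Fin n)) ⊆ univ.image t := by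
    intro w hw
    simp only [mem_insert, mem_singleton] at hw
    rcases hw with rfl | rfl | rfl <;> exact mem_image_of_mem _ (mem_univ _)
  have h1 := card_le_card hsub
  have h2 : ({t x, t y, t z} : Finset (Fin n)).card = 3 := card_eq_three.mpr
    ⟨t x, t y, t z, hxy, hxz, hyz, rfl⟩
  have h3 : (univ.image t).card = 2 := ht
  omega

/-- least rank two forces degree two -/
theorem Hyp.three_le (H : Hyp G f r e₀ k) (hn : 2 < n) : 3 ≤ r := by
  by_contra hr3
  have hr2 : r = 2 := by have := H.one_lt; omega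
  subst hr2
  let E : Setoid (Fin n) :=
    ⟨fun x y => ∀ t t', Gen G f t → rank t = 2 → Gen G f t' → rank t' = 2 →
        (t x = t y ↔ t' x = t' y),
      ⟨fun x t t' _ _ _ _ => by simp,
       fun h t t' ht hrt ht' hrt' => by
        have := h t t' ht hrt ht' hrt'
        rw [eq_comm, this, eq_comm],
       fun {x y z} h h' t t' ht hrt ht' hrt' => by
        have h1 := h t t' ht hrt ht' hrt'
        have h2 := h' t t' ht hrt ht' hrt'
        by_cases hxy : t x = t y
        · have hxy' := h1.mp hxy
          rw [hxy, hxy']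
          exact h2
        · have hxy' : t' x ≠ t' y := fun hc => hxy (h1.mpr hc)
          by_cases hyz : t y = t z
          · have hyz' := h2.mp hyz
            rw [← hyz, ← hyz']
            exact h1
          · have hyz' : t' y ≠ t' z := fun hc => hyz (h2.mpr hc)
            exact ⟨fun _ => two_val hrt' hxy' hyz', fun _ => two_val hrt hxy hyz⟩⟩⟩
  have hinv : ∀ g ∈ G, ∀ x y, E x y → E (g x) (g y) := by
    intro g hg x y hxy t t' ht hrt ht' hrt'
    exact hxy (t ∘ g) (t' ∘ g) (Gen.comp (Gen.perm g hg) ht) (by rw [rank_perm]; exact hrt)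
      (Gen.comp (Gen.perm g hg) ht') (by rw [rank_perm]; exact hrt')
  rcases H.prim.2 E hinv with h | h
  · -- an edge
    obtain ⟨p, q, hpq, himg⟩ := card_eq_two.mp (H.rk : (univ.image e₀).card = 2)
    apply hpq
    apply h
    have hsep : ∀ t, Gen G f t → rank t = 2 → t p ≠ t q := by
      intro t ht hrt htpq
      have h1 : 2 ≤ rank (t ∘ e₀) := H.min _ (Gen.comp H.gen ht)
      rw [rank, ← Finset.image_image, himg] at h1
      simp [htpq] at h1
    intro t t' ht hrt ht' hrt'
    exact ⟨fun hc => absurd hc (hsep t ht hrt), fun hc => absurd hc (hsep t' ht' hrt')⟩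
  · have hcard : (univ.image e₀).card < (univ : Finset (Fin n)).card := by
      have h1 : (univ.image e₀).card = 2 := H.rk
      rw [h1]; simpa using hn
    obtain ⟨x, _, y, _, hxy, hexy⟩ := exists_ne_map_eq_of_card_lt_of_maps_to hcard
      (fun a _ => mem_image_of_mem e₀ (mem_univ a))
    obtain ⟨t, ht, hrt, htxy⟩ := sep H.prim H.one_lt H.gen H.rk x y hxy
    exact htxy ((h x y e₀ t H.gen H.rk ht hrt).mp hexy)

theorem Hyp.two (H : Hyp G f r e₀ k) {h : Fin n → Fin n} (hh : Gen G f h)
    (hr : rank h = r + 2) :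
    3 ≤ r ∧ ∃ (s : ℕ) (u v x y : Fin n), 0 < s ∧ s < k ∧ [u, v, x, y].Nodup ∧
      small h k = {u, v, x, y} ∧
      fib h u = s ∧ fib h v = s ∧ fib h x = k - s ∧ fib h y = k - s ∧
      ¬ Joined G f u v ∧ ¬ Joined G f x y ∧
      (∃ t, Gen G f t ∧ rank t = r ∧ t u = t x ∧ t v = t y) ∧
      (∃ t, Gen G f t ∧ rank t = r ∧ t u = t y ∧ t v = t x) := by
  have hn : rank h ≤ n := by
    have := card_image_le (s := (univ : Finset (Fin n))) (f := h)
    simpa [rank] using this
  have h1r := H.one_lt
  refine ⟨H.three_le (by omega), ?_⟩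
  have hc4 := (H.cards hh hr).2
  obtain ⟨a, ha⟩ := card_pos.mp (by omega : 0 < (small h k).card)
  obtain ⟨b, hb, hba, hbt, hpb, hab⟩ := H.pairing H.gen H.rk hh hr ha
  obtain ⟨t₂, ht₂, hrt₂, hsep⟩ := sep H.prim H.one_lt H.gen H.rk a b (Ne.symm hba)
  obtain ⟨c, hc, hca, hct, hpc, hac⟩ := H.pairing ht₂ hrt₂ hh hr ha
  have hcb : c ≠ b := by
    rintro rfl
    exact hsep hct.symm
  -- the partner of `c` under `e₀`
  obtain ⟨d, hd, hdc, hdt, hpd, hcd⟩ := H.pairing H.gen H.rk hh hr hc
  have hca1 : e₀ c ≠ e₀ a := fun hcon => by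
    rcases hpb c hc hcon with h1 | h1
    · exact hca h1
    · exact hcb h1
  have hda : d ≠ a := by
    rintro rfl
    exact hca1 hdt.symm
  have hdb : d ≠ b := by
    rintro rfl
    exact hca1 (hdt.symm.trans hbt)
  have hset : small h k = {a, d, b, c} := by
    symm
    apply eq_of_subset_of_card_le
    · intro z hz
      simp only [mem_insert, mem_singleton] at hz
      rcases hz with rfl | rfl | rfl | rfl <;> assumption
    · rw [hc4]
      have : ({a, d, b, c} : Finset (Fin n)).card = 4 := by
        rw [card_insert_of_notMem, card_insert_of_notMem, card_insert_of_notMem,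
          card_singleton]
        · simpa using Ne.symm hcb
        · simp only [mem_insert, mem_singleton, not_or]
          exact ⟨hdb, hdc⟩
        · simp only [mem_insert, mem_singleton, not_or]
          exact ⟨Ne.symm hda, Ne.symm hba, Ne.symm hca⟩
      omega
  -- the partner of `b` under `t₂` is `d`
  obtain ⟨d', hd', hd'b, hd't, _, hbd'⟩ := H.pairing ht₂ hrt₂ hh hr hb
  have hdd : d' = d := by
    rw [hset] at hd'
    simp only [mem_insert, mem_singleton] at hd'
    rcases hd' with rfl | rfl | rfl | rfl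
    · exact absurd hd't hsep
    · rfl
    · exact absurd rfl hd'b
    · exact absurd (hct.symm.trans hd't) hsep
  subst hdd
  have ha' := mem_filter.mp ha
  have hb' := mem_filter.mp hb
  have hpa := fib_pos ha'.1
  have hpb' := fib_pos hb'.1
  -- the third pairing is impossible
  have hthird : ∀ t, Gen G f t → rank t = r → t a = t d' ∧ t b = t c → False := by
    rintro t ht hrt ⟨h1, h2⟩
    apply H.not_all_joined hh hr
    have j1 : Joined G f a b := ⟨e₀, H.gen, hbt.symm⟩
    have j2 : Joined G f a c := ⟨t₂, ht₂, hct.symm⟩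
    have j3 : Joined G f a d' := ⟨t, ht, h1⟩
    have j4 : Joined G f b c := ⟨t, ht, h2⟩
    have j5 : Joined G f b d' := ⟨t₂, ht₂, hd't.symm⟩
    have j6 : Joined G f c d' := ⟨e₀, H.gen, hdt.symm⟩
    have hsymm : ∀ p q, Joined G f p q → Joined G f q p := fun p q ⟨t, ht, h⟩ => ⟨t, ht, h.symm⟩
    intro p hp q hq hpq
    rw [hset] at hp hq
    simp only [mem_insert, mem_singleton] at hp hq
    rcases hp with rfl | rfl | rfl | rfl <;> rcases hq with rfl | rfl | rfl | rfl <;>
      first
      | exact absurd rfl hpq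
      | assumption
      | (apply hsymm; assumption)
  refine ⟨fib h a, a, d', b, c, hpa, by omega, ?_, hset, rfl, by omega, by omega, by omega,
    ?_, ?_, ⟨e₀, H.gen, H.rk, hbt.symm, hdt⟩, ⟨t₂, ht₂, hrt₂, hct.symm, hd't⟩⟩
  · simp only [List.nodup_cons, List.mem_cons, List.not_mem_nil, or_false, not_or,
      List.nodup_nil, and_true, not_false_eq_true]
    exact ⟨⟨Ne.symm hda, Ne.symm hba, Ne.symm hca⟩, ⟨hdb, hdc⟩, Ne.symm hcb⟩
  · intro hj
    obtain ⟨t, ht, hrt, htad⟩ := merge H.min H.gen H.rk hj
    obtain ⟨p, hp, hpa', hpt, hpu, _⟩ := H.pairing ht hrt hh hr ha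
    obtain ⟨q, hq, hqb, hqt, hqu, _⟩ := H.pairing ht hrt hh hr hb
    have hpd' : p = d' := by
      rcases hpu d' hd htad.symm with h1 | h1
      · exact absurd h1 hda
      · exact h1.symm
    have hqc : q = c := by
      rw [hset] at hq
      simp only [mem_insert, mem_singleton] at hq
      rcases hq with rfl | rfl | rfl | rfl
      · rcases hpu b hb hqt.symm with h1 | h1
        · exact absurd h1 hba
        · exact absurd (h1.trans hpd').symm hdb
      · rcases hpu b hb (hqt.symm.trans htad.symm) with h1 | h1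
        · exact absurd h1 hba
        · exact absurd (h1.trans hpd').symm hdb
      · exact absurd rfl hqb
      · rfl
    subst hqc
    exact hthird t ht hrt ⟨htad, hqt.symm⟩
  · intro hj
    obtain ⟨t, ht, hrt, htbc⟩ := merge H.min H.gen H.rk hj
    obtain ⟨p, hp, hpb'', hpt, hpu, _⟩ := H.pairing ht hrt hh hr hb
    obtain ⟨q, hq, hqa, hqt, hqu, _⟩ := H.pairing ht hrt hh hr ha
    have hpc' : p = c := by
      rcases hpu c hc htbc.symm with h1 | h1
      · exact absurd h1 hcb
      · exact h1.symm
    have hqd : q = d' := by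
      rw [hset] at hq
      simp only [mem_insert, mem_singleton] at hq
      rcases hq with rfl | rfl | rfl | rfl
      · exact absurd rfl hqa
      · rfl
      · rcases hpu a ha hqt.symm with h1 | h1
        · exact absurd h1.symm hba
        · exact absurd (h1.trans hpc').symm hca
      · rcases hpu a ha (hqt.symm.trans htbc.symm) with h1 | h1
        · exact absurd h1.symm hba
        · exact absurd (h1.trans hpc').symm hca
    subst hqd
    exact hthird t ht hrt ⟨hqt.symm, htbc⟩

end RankStr
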